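import Pool.Agent.H3.Conn3

set_option autoImplicit false

namespace Pool.Agent.Results.MP_66c21b_co.NoneH

open Pool.Agent.H3.Conn Filter Topology

theorem result : ∀ (W : Type) [Fintype W] (H : SimpleGraph W), ¬ H.Preconnected →
    (¬ ∃ p : ℝ, 0 < p ∧ p < 1 ∧ Tendsto (pLab H) atTop (𝓝 p)) ∧
    ¬ ∃ p : ℝ, 0 < p ∧ p < 1 ∧ Tendsto (pUnl H) atTop (𝓝 p) :=
  fun _ _ H hH => ⟨fun ⟨p, _, h1, h2⟩ => (main H hH).1 ⟨p, h1, h2⟩,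
    fun ⟨p, _, h1, h2⟩ => (main H hH).2 ⟨p, h1, h2⟩⟩

end Pool.Agent.Results.MP_66c21b_co.NoneH
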